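import Mathlib

/-!
The approximate double description method is correct in every dimension.

Proof idea.  For a set `B` of rows let `cone B` be the cone generated by these rows.  If
`y ∈ cone B`, `B ⊆ I(v)`, then `y · c(v) ≥ y · x` for all `x ∈ P`, because `A_k c(v) ≥ 1 ≥ A_k x`
for `k ∈ B`.  So it is enough that the cones of the sets `I(v)` cover the space.  The invariant
is a mod 2 cycle `z` of `d`-sets of rows, each of them contained in some `I(v)`, such that every
generic `y` lies in an odd number of the cones of the members of `z`.  In step `i` let `z₊` be the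
part of `z` whose nodes are in `V₊`; the new cycle is `z + z₊ + i * ∂z₊`, and it is again carried
by the nodes.  The parity does not change, since among `d+1` vectors in an open half space an even
number (0 or 2) of the `d`-subsets has a generic point `y` in its cone.
-/

set_option autoImplicit false

open Finset
open scoped Classical

namespace Pool.Agent.Results.MP_d4db3843_lc.EveryDimension

variable {d m : ℕ}

/-- The polyhedron `{x : A x ≤ t 𝟙}`; `P` is `Poly A 1` and `(1+ε)P` is `Poly A (1+ε)`. -/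
def Poly (A : Fin m → Fin d → ℝ) (t : ℝ) : Set (Fin d → ℝ) := {x | ∀ j, A j ⬝ᵥ x ≤ t}

/-- A set is a `d`-simplex in `ℝ^d`: the convex hull of `d+1` affinely independent points. -/
def IsSimplex (S : Set (Fin d → ℝ)) : Prop :=
  ∃ v : Fin (d + 1) → Fin d → ℝ, AffineIndependent ℝ v ∧ S = convexHull ℝ (Set.range v)

/-- What the method keeps: a set `V` of nodes, points `c(v)`, index sets `I(v)`, edges `E`. -/
structure State (d m : ℕ) where
  V : Type
  c : V → Fin d → ℝ
  I : V → Finset (Fin m)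
  E : V → V → Prop

/-- The index set `[d+1] ∖ {j}`. -/
def othersOf (h : d + 1 ≤ m) (j : Fin (d + 1)) : Finset (Fin m) :=
  (univ.erase j).image (Fin.castLE h)

/-- The initial state, with points `c(v_j)`; `I(v_j) = [d+1] ∖ {j}`, the graph is complete. -/
def initial (h : d + 1 ≤ m) (c : Fin (d + 1) → Fin d → ℝ) : State d m where
  V := Fin (d + 1)
  c := c
  I := othersOf h
  E u w := u ≠ w

/-- The condition on the points of the initial state: `A_k c(v_j) = 1 + ε/2` for `k ≠ j`. -/
def InitialPoints (A : Fin m → Fin d → ℝ) (ε : ℝ) (h : d + 1 ≤ m)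
    (c : Fin (d + 1) → Fin d → ℝ) : Prop :=
  ∀ j k : Fin (d + 1), k ≠ j → A (Fin.castLE h k) ⬝ᵥ c j = 1 + ε / 2

/-- The partition of step (a): `neg` is `V₋`, `pos` is `V₊`, the other nodes form `V₀`. -/
structure Admissible (A : Fin m → Fin d → ℝ) (ε : ℝ) (i : Fin m) (s : State d m)
    (neg pos : s.V → Prop) : Prop where
  nonempty : ∃ v, neg v
  disjoint : ∀ v, neg v → ¬ pos v
  neg_lt : ∀ v, neg v → A i ⬝ᵥ s.c v < 1 + ε / 2
  pos_lt : ∀ v, pos v → 1 + ε / 2 < A i ⬝ᵥ s.c v
  zero_mem : ∀ v, ¬ neg v → ¬ pos v → 1 ≤ A i ⬝ᵥ s.c v ∧ A i ⬝ᵥ s.c v ≤ 1 + ε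

/-- The edges `uw` with `u ∈ V₋` and `w ∈ V₊`. -/
abbrev CutEdge (s : State d m) (neg pos : s.V → Prop) : Type :=
  {e : s.V × s.V // neg e.1 ∧ pos e.2 ∧ s.E e.1 e.2}

/-- A point of the segment `[c(u), c(w)]` with `1 ≤ A_i x ≤ 1 + ε`. -/
def GoodPoint (A : Fin m → Fin d → ℝ) (ε : ℝ) (i : Fin m) (x y q : Fin d → ℝ) : Prop :=
  q ∈ segment ℝ x y ∧ 1 ≤ A i ⬝ᵥ q ∧ A i ⬝ᵥ q ≤ 1 + ε

/-- The state after the steps (b)-(e): one new node for every cut edge, `V₊` is deleted, `i` is
added to `I` of all nodes of `V₀` (also the new ones), and `E` is reset. -/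
noncomputable def next (i : Fin m) (s : State d m) (neg pos : s.V → Prop)
    (p : CutEdge s neg pos → Fin d → ℝ) : State d m where
  V := {v // ¬ pos v} ⊕ CutEdge s neg pos
  c := Sum.elim (fun v => s.c v) p
  I := Sum.elim (fun v => if neg v then s.I v else insert i (s.I v))
    (fun e => insert i (s.I e.1.1 ∩ s.I e.1.2))
  E x y := x ≠ y ∧ d - 1 ≤
    ((Sum.elim (fun v : {v // ¬ pos v} => if neg v then s.I v else insert i (s.I v))
      (fun e : CutEdge s neg pos => insert i (s.I e.1.1 ∩ s.I e.1.2)) x) ∩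
    (Sum.elim (fun v : {v // ¬ pos v} => if neg v then s.I v else insert i (s.I v))
      (fun e : CutEdge s neg pos => insert i (s.I e.1.1 ∩ s.I e.1.2)) y)).card

/-- `Reach A ε i s`: some run of the method is in the state `s` after the first `i` rows
(`i ≥ d+1`) have been processed. -/
inductive Reach (A : Fin m → Fin d → ℝ) (ε : ℝ) : ℕ → State d m → Prop
  | start (h : d + 1 ≤ m) (c : Fin (d + 1) → Fin d → ℝ) (hc : InitialPoints A ε h c) :
      Reach A ε (d + 1) (initial h c)
  | step (i : ℕ) (s : State d m) (hi : i < m) (hs : Reach A ε i s) (neg pos : s.V → Prop)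
      (ha : Admissible A ε ⟨i, hi⟩ s neg pos) (p : CutEdge s neg pos → Fin d → ℝ)
      (hp : ∀ e, GoodPoint A ε ⟨i, hi⟩ (s.c e.1.1) (s.c e.1.2) (p e)) :
      Reach A ε (i + 1) (next ⟨i, hi⟩ s neg pos p)

/-! ### Cones -/

/-- `y` is in the cone generated by the rows in `B` -/
def InCone (A : Fin m → Fin d → ℝ) (B : Finset (Fin m)) (y : Fin d → ℝ) : Prop :=
  ∃ μ : Fin m → ℝ, (∀ k, 0 ≤ μ k) ∧ (∀ k, k ∉ B → μ k = 0) ∧ y = ∑ k, μ k • A k

/-- `y` is not in the span of fewer than `d` rows -/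
def Gen (A : Fin m → Fin d → ℝ) (y : Fin d → ℝ) : Prop :=
  ∀ J : Finset (Fin m), J.card < d → ∀ μ : Fin m → ℝ, (∀ k, k ∉ J → μ k = 0) →
    y ≠ ∑ k, μ k • A k

lemma gen_exists (A : Fin m → Fin d → ℝ) (U : Set (Fin d → ℝ)) (hU : IsOpen U)
    (hne : U.Nonempty) : ∃ y ∈ U, Gen A y := by
  classical
  by_contra hcon
  push Not at hcon
  have hcov : U ⊆ ⋃ J ∈ (univ.filter fun J : Finset (Fin m) => J.card < d),
      (Submodule.span ℝ ((J.image A : Finset (Fin d → ℝ)) : Set (Fin d → ℝ)) :
        Set (Fin d → ℝ)) := by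
    intro y hy
    have h1 := hcon y hy
    unfold Gen at h1
    push Not at h1
    obtain ⟨J, hJ, μ, hμ, rfl⟩ := h1
    simp only [Set.mem_iUnion]
    refine ⟨J, by simpa using hJ, ?_⟩
    refine Submodule.sum_mem _ fun k _ => ?_
    by_cases hk : k ∈ J
    · refine Submodule.smul_mem _ _ (Submodule.subset_span ?_)
      simp only [coe_image, Set.mem_image, mem_coe]
      exact ⟨k, hk, rfl⟩
    · rw [hμ k hk, zero_smul]
      exact Submodule.zero_mem _
  have hnull : MeasureTheory.volume (⋃ J ∈ (univ.filter fun J : Finset (Fin m) => J.card < d),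
      (Submodule.span ℝ ((J.image A : Finset (Fin d → ℝ)) : Set (Fin d → ℝ)) :
        Set (Fin d → ℝ))) = 0 := by
    refine (MeasureTheory.measure_biUnion_null_iff
      (I := ((univ.filter fun J : Finset (Fin m) => J.card < d : Finset (Finset (Fin m))) :
        Set (Finset (Fin m)))) (Finset.countable_toSet _)).2 ?_
    intro J hJ
    have hJ' : J.card < d := by simpa using hJ
    apply MeasureTheory.Measure.addHaar_submodule
    intro htop
    have h1 := finrank_span_finset_le_card (R := ℝ) (J.image A)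
    rw [Set.finrank, htop, finrank_top, Module.finrank_fin_fun] at h1
    have h2 := Finset.card_image_le (s := J) (f := A)
    omega
  have hpos := hU.measure_pos MeasureTheory.volume hne
  have := MeasureTheory.measure_mono_null hcov hnull
  rw [this] at hpos
  exact lt_irrefl _ hpos

lemma exists_dep (A : Fin m → Fin d → ℝ) (C : Finset (Fin m)) (hC : C.card = d + 1) :
    ∃ ρ : Fin m → ℝ, (∀ k, k ∉ C → ρ k = 0) ∧ (∃ k ∈ C, ρ k ≠ 0) ∧ ∑ k, ρ k • A k = 0 := by
  have hnot : ¬ LinearIndependent ℝ (fun k : C => A k) := by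
    intro h
    have := h.fintype_card_le_finrank
    rw [Module.finrank_fin_fun, Fintype.card_coe, hC] at this
    omega
  rw [Fintype.not_linearIndependent_iff] at hnot
  obtain ⟨g, hg, k, hk⟩ := hnot
  refine ⟨fun k => if h : k ∈ C then g ⟨k, h⟩ else 0, fun k hk => dif_neg hk, ⟨k, k.2, ?_⟩, ?_⟩
  · beta_reduce; rw [dif_pos k.2]; exact hk
  · rw [← hg, ← Finset.sum_subset (Finset.subset_univ C)]
    · rw [← Finset.sum_coe_sort C]
      refine Finset.sum_congr rfl fun x _ => ?_
      beta_reduce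
      rw [dif_pos x.2]
    · intro x _ hx
      beta_reduce
      rw [dif_neg hx, zero_smul]

section local_lemma

variable {A : Fin m → Fin d → ℝ} {C : Finset (Fin m)} {y : Fin d → ℝ} {k₀ : Fin m}
  {t : Fin m → ℝ}

lemma coef_ne (hy : Gen A y) (hC : C.card = d + 1) (hk : k₀ ∈ C)
    (ht : ∀ k, k ∉ C.erase k₀ → t k = 0) (hty : y = ∑ k, t k • A k) {j : Fin m}
    (hj : j ∈ C.erase k₀) : t j ≠ 0 := by
  intro h0
  refine hy ((C.erase k₀).erase j) ?_ t ?_ hty
  · rw [card_erase_of_mem hj, card_erase_of_mem hk, hC]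
    have := Finset.card_pos.2 ⟨j, hj⟩
    rw [card_erase_of_mem hk, hC] at this
    omega
  · intro k hk'
    by_cases hkj : k = j
    · rw [hkj, h0]
    · exact ht k fun h => hk' (mem_erase.2 ⟨hkj, h⟩)

lemma dep_zero (hy : Gen A y) (hC : C.card = d + 1) (hk : k₀ ∈ C)
    (ht : ∀ k, k ∉ C.erase k₀ → t k = 0) (hty : y = ∑ k, t k • A k) {ρ : Fin m → ℝ}
    (hρ : ∀ k, k ∉ C.erase k₀ → ρ k = 0) (hρ0 : ∑ k, ρ k • A k = 0) : ∀ k, ρ k = 0 := by
  by_contra hcon
  push Not at hcon
  obtain ⟨j, hj⟩ := hcon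
  have hjC : j ∈ C.erase k₀ := by
    by_contra h
    exact hj (hρ j h)
  have h1 : y = ∑ k, (t k - t j / ρ j * ρ k) • A k := by
    simp only [sub_smul, mul_smul, Finset.sum_sub_distrib, ← Finset.smul_sum]
    rw [hρ0, smul_zero, sub_zero, ← hty]
  refine coef_ne hy hC hk (t := fun k => t k - t j / ρ j * ρ k) ?_ h1 hjC ?_
  · intro k hk'
    simp only [ht k hk', hρ k hk', mul_zero, sub_zero]
  · rw [div_mul_cancel₀ _ hj, sub_self]

/-- the dependency normalised at `k₀`, and the general representation of `y` -/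
lemma rep (hy : Gen A y) (hC : C.card = d + 1) (hk : k₀ ∈ C)
    (ht : ∀ k, k ∉ C.erase k₀ → t k = 0) (hty : y = ∑ k, t k • A k) :
    ∃ ρ : Fin m → ℝ, (∀ k, k ∉ C → ρ k = 0) ∧ ρ k₀ = 1 ∧ ∑ k, ρ k • A k = 0 ∧
      ∀ s : Fin m → ℝ, (∀ k, k ∉ C → s k = 0) → y = ∑ k, s k • A k →
        ∀ k, s k = t k + s k₀ * ρ k := by
  obtain ⟨ρ, h1, ⟨j, hjC, hj⟩, h3⟩ := exists_dep A C hC
  have hk0 : ρ k₀ ≠ 0 := by
    intro h0
    refine hj (dep_zero hy hC hk ht hty (ρ := ρ) ?_ h3 j)
    intro k hk'
    by_cases hkk : k = k₀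
    · rw [hkk, h0]
    · exact h1 k fun h => hk' (mem_erase.2 ⟨hkk, h⟩)
  have hsum : ∑ k, (ρ k / ρ k₀) • A k = 0 := by
    have : ∀ k, (ρ k / ρ k₀) • A k = (ρ k₀)⁻¹ • (ρ k • A k) := fun k => by
      rw [smul_smul]; congr 1; field_simp
    simp only [this, ← Finset.smul_sum, h3, smul_zero]
  refine ⟨fun k => ρ k / ρ k₀, fun k hk' => by simp [h1 k hk'], div_self hk0, hsum, ?_⟩
  intro s hs hsy
  have h4 := dep_zero hy hC hk ht hty
    (ρ := fun k => s k - t k - s k₀ * (ρ k / ρ k₀)) ?_ ?_
  · intro k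
    have := h4 k
    linarith
  · intro k hk'
    by_cases hkk : k = k₀
    · subst hkk
      simp only [ht k (by simp), div_self hk0]
      ring
    · have hkC : k ∉ C := fun h => hk' (mem_erase.2 ⟨hkk, h⟩)
      simp only [hs k hkC, ht k hk', h1 k hkC]
      ring
  · simp only [sub_smul, mul_smul, Finset.sum_sub_distrib, ← Finset.smul_sum]
    rw [hsum, smul_zero, sub_zero, ← hty, ← hsy, sub_self]

end local_lemma

/-- the indicator of the cone, with values in `ZMod 2` -/
noncomputable def chi (A : Fin m → Fin d → ℝ) (B : Finset (Fin m)) (y : Fin d → ℝ) : ZMod 2 :=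
  if InCone A B y then 1 else 0

/-- Among `d+1` rows in an open half space, an even number of `d`-subsets has a generic `y` in its
cone. -/
lemma sum_chi_zero {A : Fin m → Fin d → ℝ} {C : Finset (Fin m)} {y w : Fin d → ℝ}
    (hy : Gen A y) (hC : C.card = d + 1) (hw : ∀ k ∈ C, 0 < A k ⬝ᵥ w) :
    ∑ k ∈ C, chi A (C.erase k) y = 0 := by
  by_cases hex : ∃ k₀ ∈ C, InCone A (C.erase k₀) y
  swap
  · push Not at hex
    exact Finset.sum_eq_zero fun k hk => if_neg (hex k hk)
  obtain ⟨k₀, hk₀, t, ht0, ht, hty⟩ := hex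
  have htpos : ∀ j ∈ C.erase k₀, 0 < t j := fun j hj =>
    lt_of_le_of_ne (ht0 j) (coef_ne hy hC hk₀ ht hty hj).symm
  obtain ⟨ρ, hρ, hρ1, hρ0, hrep⟩ := rep hy hC hk₀ ht hty
  -- some coefficient is negative
  have hneg : ∃ l ∈ C.erase k₀, ρ l < 0 := by
    by_contra hcon
    push Not at hcon
    have h1 : (∑ k, ρ k • A k) ⬝ᵥ w = 0 := by rw [hρ0, zero_dotProduct]
    rw [sum_dotProduct, ← Finset.sum_subset (Finset.subset_univ C),
      ← Finset.add_sum_erase C _ hk₀] at h1
    · simp only [smul_dotProduct, smul_eq_mul, hρ1, one_mul] at h1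
      have h2 : 0 ≤ ∑ k ∈ C.erase k₀, ρ k * A k ⬝ᵥ w := Finset.sum_nonneg fun k hk =>
        mul_nonneg (hcon k hk) (hw k (mem_of_mem_erase hk)).le
      have h3 := hw k₀ hk₀
      linarith
    · intro k _ hk
      rw [hρ k hk, zero_smul, zero_dotProduct]
  obtain ⟨l, hl, hmin⟩ := Finset.exists_min_image ((C.erase k₀).filter fun l => ρ l < 0)
    (fun l => t l / (- ρ l)) (by obtain ⟨l, hl, h⟩ := hneg; exact ⟨l, mem_filter.2 ⟨hl, h⟩⟩)
  rw [mem_filter] at hl
  obtain ⟨hlC, hlneg⟩ := hl
  have hl0 : l ≠ k₀ := (mem_erase.1 hlC).1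
  have hlC' : l ∈ C := (mem_erase.1 hlC).2
  set r := t l / (- ρ l) with hr
  have hrpos : 0 < r := div_pos (htpos l hlC) (by linarith)
  have hrl : t l + r * ρ l = 0 := by
    rw [hr, div_neg, neg_mul, div_mul_cancel₀ _ hlneg.ne]; ring
  -- `y` is in the cone of `C.erase l`
  have hinl : InCone A (C.erase l) y := by
    refine ⟨fun k => t k + r * ρ k, ?_, ?_, ?_⟩
    · intro k
      by_cases hkC : k ∈ C.erase k₀
      · by_cases hkn : ρ k < 0
        · have h1 := hmin k (mem_filter.2 ⟨hkC, hkn⟩)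
          rw [le_div_iff₀ (by linarith)] at h1
          simp only
          linarith
        · have := htpos k hkC
          have h2 : 0 ≤ r * ρ k := mul_nonneg hrpos.le (not_lt.1 hkn)
          simp only
          linarith
      · simp only [ht k hkC, zero_add]
        by_cases hkk : k = k₀
        · rw [hkk, hρ1]; linarith
        · rw [hρ k fun h => hkC (mem_erase.2 ⟨hkk, h⟩), mul_zero]
    · intro k hk
      by_cases hkl : k = l
      · rw [hkl]; exact hrl
      · have hkC : k ∉ C := fun h => hk (mem_erase.2 ⟨hkl, h⟩)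
        simp only [ht k fun h => hkC (mem_of_mem_erase h), hρ k hkC, mul_zero, add_zero]
    · simp only [add_smul, mul_smul, Finset.sum_add_distrib, ← Finset.smul_sum]
      rw [hρ0, smul_zero, add_zero, ← hty]
  -- and in no other one
  have huniq : ∀ l' ∈ C, l' ≠ k₀ → l' ≠ l → ¬ InCone A (C.erase l') y := by
    rintro l' hl' hl'0 hl'l ⟨s, hs0, hs, hsy⟩
    have hsC : ∀ k, k ∉ C → s k = 0 := fun k hk => hs k fun h => hk (mem_of_mem_erase h)
    have hsr := hrep s hsC hsy
    have hl'C : l' ∈ C.erase k₀ := mem_erase.2 ⟨hl'0, hl'⟩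
    have h1 := hsr l'
    rw [hs l' (by simp)] at h1
    have h2 := htpos l' hl'C
    have h3 : 0 ≤ s k₀ := hs0 k₀
    have h4 : ρ l' < 0 := by
      by_contra hcon
      have := mul_nonneg h3 (not_lt.1 hcon)
      linarith
    have h5 := hmin l' (mem_filter.2 ⟨hl'C, h4⟩)
    rw [le_div_iff₀ (by linarith)] at h5
    -- r ≤ s k₀
    have h6 : r ≤ s k₀ := by
      have : r * -ρ l' ≤ s k₀ * -ρ l' := by linarith
      exact le_of_mul_le_mul_right this (by linarith)
    have h7 : s k₀ ≤ r := by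
      have h8 := hs0 l
      rw [hsr l] at h8
      have : s k₀ * -ρ l ≤ r * -ρ l := by linarith
      exact le_of_mul_le_mul_right this (by linarith)
    have h9 : s k₀ = r := le_antisymm h7 h6
    have h10 : s l = 0 := by rw [hsr l, h9]; exact hrl
    refine hy ((C.erase l').erase l) ?_ s ?_ hsy
    · rw [card_erase_of_mem (mem_erase.2 ⟨hl'l.symm, hlC'⟩), card_erase_of_mem hl', hC]
      have h11 : 1 < C.card := Finset.one_lt_card.2 ⟨l', hl', l, hlC', hl'l⟩
      omega
    · intro k hk
      by_cases hkl : k = l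
      · rw [hkl]; exact h10
      · exact hs k fun h => hk (mem_erase.2 ⟨hkl, h⟩)
  rw [← Finset.add_sum_erase C _ hk₀, ← Finset.add_sum_erase (C.erase k₀) _ hlC]
  rw [Finset.sum_eq_zero, chi, if_pos ⟨t, ht0, ht, hty⟩, chi, if_pos hinl]
  · decide
  · intro k hk
    rw [mem_erase, mem_erase] at hk
    exact if_neg (huniq k hk.2.2 hk.2.1 hk.1)

/-- If the `d+1` rows positively span, exactly one `d`-subset has a generic `y` in its cone. -/
lemma sum_chi_one {A : Fin m → Fin d → ℝ} {C : Finset (Fin m)} {y : Fin d → ℝ}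
    (hy : Gen A y) (hC : C.card = d + 1) {Λ : Fin m → ℝ} (hΛ : ∀ k, k ∉ C → Λ k = 0)
    (hΛpos : ∀ k ∈ C, 0 < Λ k) (hΛ0 : ∑ k, Λ k • A k = 0) {t' : Fin m → ℝ}
    (ht' : ∀ k, k ∉ C → t' k = 0) (hty' : y = ∑ k, t' k • A k) :
    ∑ k ∈ C, chi A (C.erase k) y = 1 := by
  have hCne : C.Nonempty := Finset.card_pos.1 (by omega)
  obtain ⟨k₀, hk₀, hmin⟩ := Finset.exists_min_image C (fun k => t' k / Λ k) hCne
  set r := t' k₀ / Λ k₀ with hr
  have hin : InCone A (C.erase k₀) y := by
    refine ⟨fun k => t' k - r * Λ k, ?_, ?_, ?_⟩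
    · intro k
      by_cases hkC : k ∈ C
      · have h1 := hmin k hkC
        rw [le_div_iff₀ (hΛpos k hkC)] at h1
        simp only
        linarith
      · simp only [ht' k hkC, hΛ k hkC, mul_zero, sub_zero]
        exact le_refl _
    · intro k hk
      by_cases hkk : k = k₀
      · rw [hkk]
        simp only
        rw [hr, div_mul_cancel₀ _ (hΛpos k₀ hk₀).ne', sub_self]
      · have hkC : k ∉ C := fun h => hk (mem_erase.2 ⟨hkk, h⟩)
        simp only [ht' k hkC, hΛ k hkC, mul_zero, sub_zero]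
    · simp only [sub_smul, mul_smul, Finset.sum_sub_distrib, ← Finset.smul_sum]
      rw [hΛ0, smul_zero, sub_zero, ← hty']
  obtain ⟨t, ht0, ht, hty⟩ := hin
  have htpos : ∀ j ∈ C.erase k₀, 0 < t j := fun j hj =>
    lt_of_le_of_ne (ht0 j) (coef_ne hy hC hk₀ ht hty hj).symm
  obtain ⟨ρ, hρ, hρ1, hρ0, hrep⟩ := rep hy hC hk₀ ht hty
  have hρΛ : ∀ k, Λ k = Λ k₀ * ρ k := by
    intro k
    have h1 := dep_zero hy hC hk₀ ht hty (ρ := fun k => Λ k - Λ k₀ * ρ k) ?_ ?_ k
    · linarith
    · intro k hk'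
      by_cases hkk : k = k₀
      · rw [hkk, hρ1]; ring
      · have hkC : k ∉ C := fun h => hk' (mem_erase.2 ⟨hkk, h⟩)
        simp only [hρ k hkC, hΛ k hkC]; ring
    · simp only [sub_smul, mul_smul, Finset.sum_sub_distrib, ← Finset.smul_sum]
      rw [hΛ0, hρ0, smul_zero, sub_zero]
  have huniq : ∀ l ∈ C.erase k₀, ¬ InCone A (C.erase l) y := by
    rintro l hl ⟨s, hs0, hs, hsy⟩
    have hsC : ∀ k, k ∉ C → s k = 0 := fun k hk => hs k fun h => hk (mem_of_mem_erase h)
    have h1 := hrep s hsC hsy l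
    rw [hs l (by simp)] at h1
    have h2 := htpos l hl
    have h3 : 0 < ρ l := by
      have h4 := hΛpos l (mem_of_mem_erase hl)
      rw [hρΛ l] at h4
      exact (pos_iff_pos_of_mul_pos h4).1 (hΛpos k₀ hk₀)
    have := mul_nonneg (hs0 k₀) h3.le
    linarith
  rw [← Finset.add_sum_erase C _ hk₀, Finset.sum_eq_zero, add_zero, chi,
    if_pos ⟨t, ht0, ht, hty⟩]
  intro k hk
  exact if_neg (huniq k hk)

/-! ### The initial simplex -/

lemma star {A : Fin m → Fin d → ℝ} (h : d + 1 ≤ m)
    (hb : Bornology.IsBounded {x : Fin d → ℝ | ∀ j : Fin m, j.val ≤ d → A j ⬝ᵥ x ≤ 1})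
    {x : Fin d → ℝ} (hx : x ≠ 0) : ∃ k : Fin (d + 1), 0 < A (Fin.castLE h k) ⬝ᵥ x := by
  by_contra hcon
  push Not at hcon
  obtain ⟨R, hR⟩ := isBounded_iff_forall_norm_le.1 hb
  have hxn : 0 < ‖x‖ := norm_pos_iff.2 hx
  have h1 := hR (((|R| + 1) / ‖x‖) • x) (by
    intro j hj
    have h2 := hcon ⟨j.val, by omega⟩
    have h3 : Fin.castLE h ⟨j.val, by omega⟩ = j := by ext; rfl
    rw [h3] at h2
    rw [dotProduct_smul, smul_eq_mul]
    have : 0 ≤ (|R| + 1) / ‖x‖ := by positivity
    nlinarith)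
  rw [norm_smul, Real.norm_of_nonneg (by positivity), div_mul_cancel₀ _ hxn.ne'] at h1
  have := le_abs_self R
  linarith

lemma simplex_facts {A : Fin m → Fin d → ℝ} (h : d + 1 ≤ m)
    (hb : Bornology.IsBounded {x : Fin d → ℝ | ∀ j : Fin m, j.val ≤ d → A j ⬝ᵥ x ≤ 1}) :
    ∃ Λ : Fin (d + 1) → ℝ, (∀ k, 0 < Λ k) ∧ ∑ k, Λ k • A (Fin.castLE h k) = 0 ∧
      (∀ u : Fin (d + 1) → ℝ, ∑ k, Λ k * u k = 0 → ∃ x, ∀ k, A (Fin.castLE h k) ⬝ᵥ x = u k) := by
  have hst := fun (x : Fin d → ℝ) (hx : x ≠ 0) => star h hb hx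
  -- a nontrivial dependency
  have hnot : ¬ LinearIndependent ℝ (fun k : Fin (d + 1) => A (Fin.castLE h k)) := by
    intro hli
    have := hli.fintype_card_le_finrank
    rw [Module.finrank_fin_fun, Fintype.card_fin] at this
    omega
  rw [Fintype.not_linearIndependent_iff] at hnot
  obtain ⟨g, hg, k₁, hk₁⟩ := hnot
  -- the map
  let L : (Fin d → ℝ) →ₗ[ℝ] (Fin (d + 1) → ℝ) :=
    { toFun := fun x k => A (Fin.castLE h k) ⬝ᵥ x
      map_add' := fun x y => by funext k; simp [dotProduct_add]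
      map_smul' := fun r x => by funext k; simp [dotProduct_smul] }
  have hLinj : Function.Injective L := by
    rw [← LinearMap.ker_eq_bot, LinearMap.ker_eq_bot']
    intro x hx
    by_contra hx0
    obtain ⟨k, hk⟩ := hst x hx0
    have : L x k = 0 := by rw [hx]; rfl
    exact absurd this hk.ne'
  let φ : (Fin (d + 1) → ℝ) →ₗ[ℝ] ℝ :=
    { toFun := fun u => ∑ k, g k * u k
      map_add' := fun x y => by simp [mul_add, Finset.sum_add_distrib]
      map_smul' := fun r x => by
        simp only [Pi.smul_apply, smul_eq_mul, RingHom.id_apply, Finset.mul_sum]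
        exact Finset.sum_congr rfl fun k _ => by ring }
  have hφ : φ ≠ 0 := by
    intro h0
    have : φ (Pi.single k₁ 1) = 0 := by rw [h0]; rfl
    have h2 : φ (Pi.single k₁ 1) = g k₁ := by
      show ∑ k, g k * (Pi.single k₁ (1 : ℝ) : Fin (d + 1) → ℝ) k = g k₁
      simp [Pi.single_apply]
    exact hk₁ (h2 ▸ this)
  have hle : LinearMap.range L ≤ LinearMap.ker φ := by
    rintro _ ⟨x, rfl⟩
    rw [LinearMap.mem_ker]
    show ∑ k, g k * (A (Fin.castLE h k) ⬝ᵥ x) = 0
    have h1 : (∑ k, g k • A (Fin.castLE h k)) ⬝ᵥ x = 0 := by rw [hg, zero_dotProduct]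
    rw [sum_dotProduct] at h1
    simpa [smul_dotProduct] using h1
  have heq : LinearMap.range L = LinearMap.ker φ := by
    apply Submodule.eq_of_le_of_finrank_eq hle
    rw [LinearMap.finrank_range_of_inj hLinj, Module.finrank_fin_fun]
    have h1 := Module.Dual.finrank_ker_add_one_of_ne_zero (f := φ) hφ
    rw [Module.finrank_fin_fun] at h1
    omega
  have hsur : ∀ u : Fin (d + 1) → ℝ, ∑ k, g k * u k = 0 →
      ∃ x, ∀ k, A (Fin.castLE h k) ⬝ᵥ x = u k := by
    intro u hu
    have h1 : u ∈ LinearMap.range L := by rw [heq, LinearMap.mem_ker]; exact hu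
    obtain ⟨x, hx⟩ := h1
    exact ⟨x, fun k => congrFun hx k⟩
  -- no nonzero nonpositive vector in the kernel
  have hno : ∀ u : Fin (d + 1) → ℝ, ∑ k, g k * u k = 0 → (∀ k, u k ≤ 0) → ∀ k, u k = 0 := by
    intro u hu hu0 k
    obtain ⟨x, hx⟩ := hsur u hu
    by_contra hk
    have hx0 : x ≠ 0 := by
      rintro rfl
      rw [← hx k, dotProduct_zero] at hk
      exact hk rfl
    obtain ⟨l, hl⟩ := hst x hx0
    rw [hx l] at hl
    exact absurd (hu0 l) (not_le.2 hl)
  have hne : ∀ k, g k ≠ 0 := by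
    intro k hk
    have h1 := hno (Pi.single k (-1)) (by simp [Pi.single_apply, hk])
      (fun l => by rw [Pi.single_apply]; split_ifs <;> norm_num) k
    simp at h1
  have hsign : ∀ k l, k ≠ l → 0 < g k * g l := by
    intro k l hkl
    by_contra hcon
    have hlt : g k * g l < 0 := lt_of_le_of_ne (not_lt.1 hcon) (mul_ne_zero (hne k) (hne l))
    have h1 := hno (Pi.single k (-|g l|) + Pi.single l (-|g k|)) (by
        simp only [Pi.add_apply, mul_add, Finset.sum_add_distrib, Pi.single_apply, mul_ite,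
          mul_zero, Finset.sum_ite_eq', Finset.mem_univ, if_true]
        rcases lt_or_gt_of_ne (hne k) with hk | hk
        · have hl : 0 < g l := by nlinarith
          rw [abs_of_pos hl, abs_of_neg hk]; ring
        · have hl : g l < 0 := by nlinarith
          rw [abs_of_neg hl, abs_of_pos hk]; ring)
      (fun j => by
        simp only [Pi.add_apply, Pi.single_apply]
        have := abs_nonneg (g k)
        have := abs_nonneg (g l)
        split_ifs <;> linarith) k
    simp only [Pi.add_apply, Pi.single_apply, if_true, if_neg hkl, add_zero, neg_eq_zero,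
      abs_eq_zero] at h1
    exact hne l h1
  refine ⟨fun k => g k₁ * g k, ?_, ?_, ?_⟩
  · intro k
    by_cases hk : k₁ = k
    · subst hk; exact mul_self_pos.2 hk₁
    · exact hsign _ _ hk
  · simp only [mul_smul, ← Finset.smul_sum, hg, smul_zero]
  · intro u hu
    apply hsur
    simp only [mul_assoc, ← Finset.mul_sum] at hu
    exact (mul_eq_zero.1 hu).resolve_left hk₁

lemma spanning {A : Fin m → Fin d → ℝ} (h : d + 1 ≤ m)
    (hb : Bornology.IsBounded {x : Fin d → ℝ | ∀ j : Fin m, j.val ≤ d → A j ⬝ᵥ x ≤ 1})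
    (y : Fin d → ℝ) : ∃ t : Fin (d + 1) → ℝ, y = ∑ k, t k • A (Fin.castLE h k) := by
  by_contra hcon
  have hlt : Submodule.span ℝ (Set.range fun k => A (Fin.castLE h k)) < ⊤ := by
    rw [lt_top_iff_ne_top]
    intro htop
    apply hcon
    have hy : y ∈ Submodule.span ℝ (Set.range fun k => A (Fin.castLE h k)) := by
      rw [htop]; trivial
    obtain ⟨t, ht⟩ := (Submodule.mem_span_range_iff_exists_fun ℝ).1 hy
    exact ⟨t, ht.symm⟩
  obtain ⟨f, hf, hle⟩ := Submodule.exists_le_ker_of_lt_top _ hlt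
  have hfx : ∀ z : Fin d → ℝ, f z = z ⬝ᵥ (fun i => f (Pi.single i 1)) := by
    intro z
    rw [LinearMap.pi_apply_eq_sum_univ f z]
    simp only [dotProduct, smul_eq_mul]
    refine Finset.sum_congr rfl fun x _ => ?_
    congr 2
    funext j
    simp [Pi.single_apply, eq_comm]
  obtain ⟨k, hk⟩ := star h hb (x := fun i => f (Pi.single i 1)) (by
    intro h0
    apply hf
    ext i
    simpa using congrFun h0 i)
  rw [← hfx] at hk
  have : f (A (Fin.castLE h k)) = 0 := hle (Submodule.subset_span ⟨k, rfl⟩)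
  exact hk.ne' this

/-! ### Chains modulo 2 -/

/-- the mod 2 boundary -/
noncomputable def bd (z : Finset (Fin m) → ZMod 2) (J : Finset (Fin m)) : ZMod 2 :=
  ∑ k ∈ Jᶜ, z (insert k J)

/-- the chain after step `i` -/
noncomputable def upd (z zp : Finset (Fin m) → ZMod 2) (i : Fin m) (B : Finset (Fin m)) : ZMod 2 :=
  if i ∈ B then bd zp (B.erase i) else z B + zp B

lemma two_self (a : ZMod 2) : a + a = 0 := CharTwo.add_self_eq_zero a

lemma bd_upd {z zp : Finset (Fin m) → ZMod 2} {i : Fin m} (hz : ∀ J, bd z J = 0)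
    (hzi : ∀ B, i ∈ B → z B = 0) (hzpi : ∀ B, i ∈ B → zp B = 0) (J : Finset (Fin m)) :
    bd (upd z zp i) J = 0 := by
  by_cases hiJ : i ∈ J
  · have h1 : bd (upd z zp i) J = ∑ k ∈ Jᶜ, ∑ l ∈ Jᶜ.erase k,
        zp (insert l (insert k (J.erase i))) := by
      unfold bd
      refine Finset.sum_congr rfl fun k hk => ?_
      rw [mem_compl] at hk
      have hki : k ≠ i := fun h => hk (h ▸ hiJ)
      unfold upd
      rw [if_pos (mem_insert_of_mem hiJ), erase_insert_of_ne hki]
      unfold bd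
      have h2 : (insert k (J.erase i))ᶜ = insert i (Jᶜ.erase k) := by
        ext l
        simp only [mem_compl, mem_insert, mem_erase, not_or, not_and]
        constructor
        · rintro ⟨h3, h4⟩
          by_cases hli : l = i
          · exact Or.inl hli
          · exact Or.inr ⟨h3, fun hl => hli (by_contra fun h5 => (h4 h5) hl)⟩
        · rintro (h3 | ⟨h3, h4⟩)
          · subst h3
            exact ⟨hki.symm, fun h5 => absurd rfl h5⟩
          · exact ⟨h3, fun _ => h4⟩
      rw [h2, Finset.sum_insert, hzpi _ (mem_insert_self _ _), zero_add]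
      simp [hiJ]
    rw [h1, Finset.sum_sigma']
    refine Finset.sum_involution (fun p _ => ⟨p.2, p.1⟩) ?_ ?_ ?_ ?_
    · rintro ⟨k, l⟩ _
      simp only
      rw [Finset.insert_comm]
      exact two_self _
    · rintro ⟨k, l⟩ hp _ heq
      rw [mem_sigma, mem_erase] at hp
      simp only [Sigma.mk.injEq, heq_eq_eq] at heq
      exact hp.2.1 heq.1
    · rintro ⟨k, l⟩ hp
      simp only [mem_sigma, mem_erase] at hp ⊢
      exact ⟨hp.2.2, hp.2.1.symm, hp.1⟩
    · rintro ⟨k, l⟩ _
      rfl
  · have hi : i ∈ Jᶜ := mem_compl.2 hiJ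
    unfold bd
    rw [← Finset.add_sum_erase _ _ hi]
    have h1 : upd z zp i (insert i J) = bd zp J := by
      unfold upd
      rw [if_pos (mem_insert_self _ _), erase_insert hiJ]
    have h2 : ∑ k ∈ Jᶜ.erase i, upd z zp i (insert k J) =
        ∑ k ∈ Jᶜ.erase i, z (insert k J) + ∑ k ∈ Jᶜ.erase i, zp (insert k J) := by
      rw [← Finset.sum_add_distrib]
      refine Finset.sum_congr rfl fun k hk => ?_
      rw [mem_erase] at hk
      unfold upd
      rw [if_neg]
      rw [mem_insert, not_or]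
      exact ⟨hk.1.symm, hiJ⟩
    have h3 := hz J
    unfold bd at h3
    rw [← Finset.add_sum_erase _ _ hi, hzi _ (mem_insert_self _ _), zero_add] at h3
    have h4 : bd zp J = ∑ k ∈ Jᶜ.erase i, zp (insert k J) := by
      unfold bd
      rw [← Finset.add_sum_erase _ _ hi, hzpi _ (mem_insert_self _ _), zero_add]
    rw [h1, h2, h3, zero_add, h4]
    exact two_self _

lemma deg_upd {z zp : Finset (Fin m) → ZMod 2} {i : Fin m} {X : Finset (Fin m) → ZMod 2}
    (hzi : ∀ B, i ∈ B → z B = 0) (hzpi : ∀ B, i ∈ B → zp B = 0)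
    (hX : ∀ B, zp B ≠ 0 → ∑ k ∈ insert i B, X ((insert i B).erase k) = 0) :
    ∑ B, upd z zp i B * X B = ∑ B, z B * X B := by
  have h1 : ∀ B, upd z zp i B * X B = z B * X B + (zp B * X B +
      if i ∈ B then bd zp (B.erase i) * X B else 0) := by
    intro B
    unfold upd
    by_cases hi : i ∈ B
    · rw [if_pos hi, if_pos hi, hzi B hi, hzpi B hi]; ring
    · rw [if_neg hi, if_neg hi]; ring
  rw [Finset.sum_congr rfl fun B _ => h1 B, Finset.sum_add_distrib, add_eq_left,
    Finset.sum_add_distrib]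
  have h2 : ∑ B : Finset (Fin m), (if i ∈ B then bd zp (B.erase i) * X B else 0) =
      ∑ B : Finset (Fin m), ∑ k ∈ B, zp B * X (insert i (B.erase k)) := by
    rw [← Finset.sum_filter]
    have h3 : ∀ B ∈ univ.filter (fun B : Finset (Fin m) => i ∈ B),
        bd zp (B.erase i) * X B = ∑ k ∈ Bᶜ, zp (insert k (B.erase i)) * X B := by
      intro B hB
      have hiB : i ∈ B := (mem_filter.1 hB).2
      unfold bd
      have h4 : (B.erase i)ᶜ = insert i Bᶜ := by
        ext l
        simp only [mem_compl, mem_insert, mem_erase, not_and, ]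
        constructor
        · intro h5
          by_cases hli : l = i
          · exact Or.inl hli
          · exact Or.inr (h5 hli)
        · rintro (h5 | h5)
          · exact fun h6 => absurd h5 h6
          · exact fun _ => h5
      rw [h4, Finset.sum_insert (by simp [hiB]), hzpi _ (mem_insert_self _ _), zero_add,
        Finset.sum_mul]
    rw [Finset.sum_congr rfl h3]
    have h5 : ∑ B : Finset (Fin m), ∑ k ∈ B, zp B * X (insert i (B.erase k)) =
        ∑ B ∈ univ.filter (fun B : Finset (Fin m) => i ∉ B),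
          ∑ k ∈ B, zp B * X (insert i (B.erase k)) := by
      rw [Finset.sum_filter]
      refine Finset.sum_congr rfl fun B _ => ?_
      split_ifs with hB
      · refine Finset.sum_eq_zero fun k _ => ?_
        rw [hzpi B hB, zero_mul]
      · rfl
    rw [h5, Finset.sum_sigma', Finset.sum_sigma']
    refine Finset.sum_bij' (fun p _ => ⟨insert p.2 (p.1.erase i), p.2⟩)
      (fun p _ => ⟨insert i (p.1.erase p.2), p.2⟩) ?_ ?_ ?_ ?_ ?_
    · rintro ⟨B, k⟩ hp
      simp only [mem_sigma, mem_filter, mem_univ, true_and, mem_compl] at hp ⊢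
      refine ⟨?_, mem_insert_self _ _⟩
      rw [mem_insert, not_or]
      exact ⟨fun h => hp.2 (h ▸ hp.1), by simp⟩
    · rintro ⟨B, k⟩ hp
      simp only [mem_sigma, mem_filter, mem_univ, true_and, mem_compl] at hp ⊢
      refine ⟨mem_insert_self _ _, ?_⟩
      rw [mem_insert, not_or]
      exact ⟨fun h => hp.1 (h ▸ hp.2), by simp⟩
    · rintro ⟨B, k⟩ hp
      simp only [mem_sigma, mem_filter, mem_univ, true_and, mem_compl] at hp
      have h6 : k ∉ B.erase i := fun h => hp.2 (mem_of_mem_erase h)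
      simp only [erase_insert h6, insert_erase hp.1]
    · rintro ⟨B, k⟩ hp
      simp only [mem_sigma, mem_filter, mem_univ, true_and] at hp
      have h6 : i ∉ B.erase k := fun h => hp.1 (mem_of_mem_erase h)
      simp only [erase_insert h6, insert_erase hp.2]
    · rintro ⟨B, k⟩ hp
      simp only [mem_sigma, mem_filter, mem_univ, true_and, mem_compl] at hp
      have h6 : k ∉ B.erase i := fun h => hp.2 (mem_of_mem_erase h)
      simp only [erase_insert h6, insert_erase hp.1]
  rw [h2, ← Finset.sum_add_distrib]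
  refine Finset.sum_eq_zero fun B _ => ?_
  by_cases hB : zp B = 0
  · simp [hB]
  · have hiB : i ∉ B := fun h => hB (hzpi B h)
    have h3 := hX B hB
    rw [Finset.sum_insert hiB, erase_insert hiB] at h3
    rw [← Finset.mul_sum, ← mul_add]
    have h4 : ∑ k ∈ B, X (insert i (B.erase k)) = ∑ k ∈ B, X ((insert i B).erase k) := by
      refine Finset.sum_congr rfl fun k hk => ?_
      rw [erase_insert_of_ne]
      exact fun h => hiB (h ▸ hk)
    rw [h4, h3, mul_zero]

/-! ### The invariant -/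

/-- The invariant of the proof. -/
structure Inv (A : Fin m → Fin d → ℝ) (ε : ℝ) (i : ℕ) (s : State d m) : Prop where
  fin : Finite s.V
  slab : ∀ v, ∀ k ∈ s.I v, 1 ≤ A k ⬝ᵥ s.c v
  le : ∀ v, ∀ k : Fin m, k.val < i → A k ⬝ᵥ s.c v ≤ 1 + ε
  lt : ∀ v, ∀ k ∈ s.I v, k.val < i
  edge : ∀ u w, u ≠ w → d - 1 ≤ (s.I u ∩ s.I w).card → s.E u w
  chain : ∃ z : Finset (Fin m) → ZMod 2, (∀ B, z B ≠ 0 → B.card = d ∧ ∃ v, B ⊆ s.I v) ∧
    (∀ J, bd z J = 0) ∧ ∀ y, Gen A y → ∑ B, z B * chi A B y = 1

lemma seg_dot {x y q : Fin d → ℝ} (hq : q ∈ segment ℝ x y) :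
    ∃ r s : ℝ, 0 ≤ r ∧ 0 ≤ s ∧ r + s = 1 ∧ ∀ a : Fin d → ℝ, a ⬝ᵥ q = r * a ⬝ᵥ x + s * a ⬝ᵥ y := by
  obtain ⟨r, s, hr, hs, hrs, rfl⟩ := hq
  exact ⟨r, s, hr, hs, hrs, fun a => by simp [dotProduct_add, dotProduct_smul]⟩

lemma inv_initial {A : Fin m → Fin d → ℝ} {ε : ℝ} (hε : 0 ≤ ε) (hd : 1 ≤ d) (h : d + 1 ≤ m)
    (hb : Bornology.IsBounded {x : Fin d → ℝ | ∀ j : Fin m, j.val ≤ d → A j ⬝ᵥ x ≤ 1})
    {c : Fin (d + 1) → Fin d → ℝ} (hc : InitialPoints A ε h c) :
    Inv A ε (d + 1) (initial h c) := by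
  obtain ⟨Λ, hΛ, hΛ0, -⟩ := simplex_facts h hb
  have hinj : Function.Injective (Fin.castLE h) := Fin.castLE_injective h
  set C : Finset (Fin m) := univ.image (Fin.castLE h) with hCdef
  have hC : C.card = d + 1 := by
    rw [hCdef, card_image_of_injective _ hinj, card_univ, Fintype.card_fin]
  have hmemC : ∀ k : Fin m, k ∈ C ↔ k.val < d + 1 := by
    intro k
    rw [hCdef, mem_image]
    constructor
    · rintro ⟨l, -, rfl⟩
      exact l.isLt
    · intro hk
      exact ⟨⟨k.val, hk⟩, mem_univ _, by ext; rfl⟩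
  have hI : ∀ j : Fin (d + 1), (univ.erase j).image (Fin.castLE h) = C.erase (Fin.castLE h j) := by
    intro j
    rw [hCdef, Finset.image_erase hinj]
  refine ⟨?_, ?_, ?_, ?_, ?_, ?_⟩
  · show Finite (Fin (d + 1))
    infer_instance
  · intro (v : Fin (d + 1)) k hk
    have hk' : k ∈ (univ.erase v).image (Fin.castLE h) := hk
    obtain ⟨l, hl, rfl⟩ := mem_image.1 hk'
    have := hc v l (mem_erase.1 hl).1
    show 1 ≤ A (Fin.castLE h l) ⬝ᵥ c v
    rw [this]; linarith
  · intro (v : Fin (d + 1)) k hk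
    have hk1 : Fin.castLE h ⟨k.val, hk⟩ = k := by ext; rfl
    show A k ⬝ᵥ c v ≤ 1 + ε
    by_cases hkv : (⟨k.val, hk⟩ : Fin (d + 1)) = v
    · have h1 : (∑ l, Λ l • A (Fin.castLE h l)) ⬝ᵥ c v = 0 := by rw [hΛ0, zero_dotProduct]
      rw [sum_dotProduct, ← Finset.add_sum_erase _ _ (mem_univ v)] at h1
      have h2 : 0 ≤ ∑ l ∈ univ.erase v, (Λ l • A (Fin.castLE h l)) ⬝ᵥ c v := by
        refine Finset.sum_nonneg fun l hl => ?_
        rw [smul_dotProduct, hc v l (mem_erase.1 hl).1, smul_eq_mul]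
        have := hΛ l
        positivity
      rw [smul_dotProduct, smul_eq_mul] at h1
      have h3 : Λ v * A (Fin.castLE h v) ⬝ᵥ c v ≤ 0 := by linarith
      have h4 : A (Fin.castLE h v) ⬝ᵥ c v ≤ 0 := by
        by_contra hcon
        have := mul_pos (hΛ v) (not_le.1 hcon)
        linarith
      rw [← hk1, hkv]
      linarith
    · have := hc v ⟨k.val, hk⟩ hkv
      rw [hk1] at this
      rw [this]; linarith
  · intro (v : Fin (d + 1)) k hk
    have hk' : k ∈ (univ.erase v).image (Fin.castLE h) := hk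
    obtain ⟨l, hl, rfl⟩ := mem_image.1 hk'
    exact l.isLt
  · intro u w huw _
    exact huw
  · refine ⟨fun B => if B ⊆ C ∧ B.card = d then 1 else 0, ?_, ?_, ?_⟩
    · intro B hB
      have hB' : B ⊆ C ∧ B.card = d := by
        by_contra hcon
        exact hB (if_neg hcon)
      refine ⟨hB'.2, ?_⟩
      have hlt : B.card < C.card := by omega
      obtain ⟨k, hkC, hkB⟩ := Finset.exists_mem_notMem_of_card_lt_card hlt
      refine ⟨⟨k.val, (hmemC k).1 hkC⟩, ?_⟩
      show B ⊆ (univ.erase (⟨k.val, (hmemC k).1 hkC⟩ : Fin (d + 1))).image (Fin.castLE h)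
      rw [hI]
      intro l hl
      refine mem_erase.2 ⟨?_, hB'.1 hl⟩
      rintro rfl
      exact hkB hl
    · intro J
      unfold bd
      by_cases hJ : J ⊆ C ∧ J.card + 1 = d
      · have h1 : ∑ k ∈ Jᶜ, (if insert k J ⊆ C ∧ (insert k J).card = d then (1 : ZMod 2) else 0) =
            ∑ k ∈ C \ J, 1 := by
          rw [← Finset.sum_filter]
          refine Finset.sum_congr ?_ fun _ _ => rfl
          ext k
          simp only [mem_filter, mem_compl, mem_sdiff, insert_subset_iff]
          constructor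
          · rintro ⟨h2, ⟨h3, -⟩, -⟩
            exact ⟨h3, h2⟩
          · rintro ⟨h2, h3⟩
            exact ⟨h3, ⟨h2, hJ.1⟩, by rw [card_insert_of_notMem h3]; exact hJ.2⟩
        rw [h1, Finset.sum_const, card_sdiff_of_subset hJ.1, hC]
        have h2 : d + 1 - J.card = 2 := by omega
        rw [h2]
        decide
      · refine Finset.sum_eq_zero fun k hk => if_neg ?_
        rintro ⟨h1, h2⟩
        rw [mem_compl] at hk
        rw [card_insert_of_notMem hk] at h2
        exact hJ ⟨(subset_insert _ _).trans h1, h2⟩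
    · intro y hy
      have h1 : ∑ B : Finset (Fin m), (if B ⊆ C ∧ B.card = d then (1 : ZMod 2) else 0) * chi A B y =
          ∑ k ∈ C, chi A (C.erase k) y := by
        simp only [ite_mul, one_mul, zero_mul]
        rw [← Finset.sum_filter]
        have h2 : univ.filter (fun B : Finset (Fin m) => B ⊆ C ∧ B.card = d) =
            C.image (fun k => C.erase k) := by
          ext B
          simp only [mem_filter, mem_univ, true_and, mem_image]
          constructor
          · rintro ⟨hB1, hB2⟩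
            have hlt : B.card < C.card := by omega
            obtain ⟨k, hkC, hkB⟩ := Finset.exists_mem_notMem_of_card_lt_card hlt
            refine ⟨k, hkC, ?_⟩
            symm
            apply Finset.eq_of_subset_of_card_le
            · intro l hl
              refine mem_erase.2 ⟨?_, hB1 hl⟩
              rintro rfl
              exact hkB hl
            · rw [card_erase_of_mem hkC]; omega
          · rintro ⟨k, hkC, rfl⟩
            exact ⟨erase_subset _ _, by rw [card_erase_of_mem hkC]; omega⟩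
        rw [h2, Finset.sum_image]
        intro k hk l hl hkl
        by_contra hne
        have : l ∈ C.erase k := mem_erase.2 ⟨fun h => hne h.symm, hl⟩
        simp only at hkl
        rw [hkl] at this
        simp at this
      rw [h1]
      obtain ⟨t, ht⟩ := spanning h hb y
      have hext : ∀ (g : Fin (d + 1) → ℝ),
          ∑ k : Fin m, (if hk : k.val < d + 1 then g ⟨k.val, hk⟩ else 0) • A k =
          ∑ k, g k • A (Fin.castLE h k) := by
        intro g
        have h3 : ∑ k, g k • A (Fin.castLE h k) =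
            ∑ k ∈ C, (if hk : k.val < d + 1 then g ⟨k.val, hk⟩ else 0) • A k := by
          rw [hCdef, Finset.sum_image (fun _ _ _ _ hxy => hinj hxy)]
          refine Finset.sum_congr rfl fun k _ => ?_
          rw [dif_pos (show (Fin.castLE h k).val < d + 1 from k.isLt)]
          rfl
        rw [h3]
        symm
        apply Finset.sum_subset (Finset.subset_univ _)
        intro k _ hk
        rw [dif_neg (fun h4 => hk ((hmemC k).2 h4)), zero_smul]
      refine sum_chi_one hy hC
        (Λ := fun k => if hk : k.val < d + 1 then Λ ⟨k.val, hk⟩ else 0) ?_ ?_ ?_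
        (t' := fun k => if hk : k.val < d + 1 then t ⟨k.val, hk⟩ else 0) ?_ ?_
      · intro k hk
        exact dif_neg (fun h4 => hk ((hmemC k).2 h4))
      · intro k hk
        simp only [dif_pos ((hmemC k).1 hk)]
        exact hΛ _
      · rw [hext, hΛ0]
      · intro k hk
        exact dif_neg (fun h4 => hk ((hmemC k).2 h4))
      · rw [hext, ← ht]

lemma inv_step {A : Fin m → Fin d → ℝ} {ε : ℝ} (hε : 0 ≤ ε) (hd : 1 ≤ d) {i : ℕ} {s : State d m}
    (hi : i < m) (hs : Inv A ε i s) {neg pos : s.V → Prop}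
    (ha : Admissible A ε ⟨i, hi⟩ s neg pos) {p : CutEdge s neg pos → Fin d → ℝ}
    (hp : ∀ e, GoodPoint A ε ⟨i, hi⟩ (s.c e.1.1) (s.c e.1.2) (p e)) :
    Inv A ε (i + 1) (next ⟨i, hi⟩ s neg pos p) := by
  have := hs.fin
  refine ⟨?_, ?_, ?_, ?_, ?_, ?_⟩
  · show Finite ({v // ¬ pos v} ⊕ CutEdge s neg pos)
    infer_instance
  · rintro (v | e) k hk
    · show 1 ≤ A k ⬝ᵥ s.c v
      have hk' : k ∈ (if neg v then s.I v else insert ⟨i, hi⟩ (s.I v)) := hk
      split_ifs at hk' with hn
      · exact hs.slab _ _ hk'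
      · rw [mem_insert] at hk'
        rcases hk' with rfl | hk'
        · exact (ha.zero_mem v hn v.2).1
        · exact hs.slab _ _ hk'
    · show 1 ≤ A k ⬝ᵥ p e
      have hk' : k ∈ insert ⟨i, hi⟩ (s.I e.1.1 ∩ s.I e.1.2) := hk
      rw [mem_insert, mem_inter] at hk'
      rcases hk' with rfl | ⟨h1, h2⟩
      · exact (hp e).2.1
      · obtain ⟨r, t, hr, ht, hrt, hq⟩ := seg_dot (hp e).1
        rw [hq]
        have h3 := hs.slab _ _ h1
        have h4 := hs.slab _ _ h2
        nlinarith
  · rintro (v | e) k hk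
    · show A k ⬝ᵥ s.c v ≤ 1 + ε
      by_cases hki : k.val < i
      · exact hs.le _ _ hki
      · have hk1 : k = ⟨i, hi⟩ := by ext; simp only; omega
        rw [hk1]
        by_cases hn : neg v
        · have := ha.neg_lt _ hn
          linarith
        · exact (ha.zero_mem v hn v.2).2
    · show A k ⬝ᵥ p e ≤ 1 + ε
      by_cases hki : k.val < i
      · obtain ⟨r, t, hr, ht, hrt, hq⟩ := seg_dot (hp e).1
        rw [hq]
        have h3 := hs.le e.1.1 _ hki
        have h4 := hs.le e.1.2 _ hki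
        nlinarith
      · have hk1 : k = ⟨i, hi⟩ := by ext; simp only; omega
        rw [hk1]
        exact (hp e).2.2
  · rintro (v | e) k hk
    · have hk' : k ∈ (if neg v then s.I v else insert ⟨i, hi⟩ (s.I v)) := hk
      split_ifs at hk' with hn
      · exact (hs.lt _ _ hk').trans (Nat.lt_succ_self i)
      · rw [mem_insert] at hk'
        rcases hk' with rfl | hk'
        · exact Nat.lt_succ_self i
        · exact (hs.lt _ _ hk').trans (Nat.lt_succ_self i)
    · have hk' : k ∈ insert ⟨i, hi⟩ (s.I e.1.1 ∩ s.I e.1.2) := hk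
      rw [mem_insert, mem_inter] at hk'
      rcases hk' with rfl | ⟨h1, h2⟩
      · exact Nat.lt_succ_self i
      · exact (hs.lt _ _ h1).trans (Nat.lt_succ_self i)
  · intro u w huw hcard
    exact ⟨huw, hcard⟩
  · obtain ⟨z, hz, hzc, hzd⟩ := hs.chain
    have : Nonempty s.V := ⟨ha.nonempty.choose⟩
    have hex : ∀ B, ∃ v, z B ≠ 0 → B ⊆ s.I v := by
      intro B
      by_cases hB : z B = 0
      · exact ⟨Classical.arbitrary _, fun h => absurd hB h⟩
      · obtain ⟨v, hv⟩ := (hz B hB).2
        exact ⟨v, fun _ => hv⟩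
    choose ν hν using hex
    set zp : Finset (Fin m) → ZMod 2 := fun B => if pos (ν B) then z B else 0 with hzp
    set i' : Fin m := ⟨i, hi⟩ with hi'
    have hzi : ∀ B, i' ∈ B → z B = 0 := by
      intro B hB
      by_contra hne
      have := hs.lt _ _ (hν B hne hB)
      rw [hi'] at this
      exact lt_irrefl _ this
    have hzpi : ∀ B, i' ∈ B → zp B = 0 := by
      intro B hB
      simp only [hzp, hzi B hB, ite_self]
    have hzpne : ∀ B, zp B ≠ 0 → z B ≠ 0 ∧ pos (ν B) := by
      intro B hB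
      by_cases hpos : pos (ν B)
      · simp only [hzp, if_pos hpos] at hB
        exact ⟨hB, hpos⟩
      · simp only [hzp, if_neg hpos] at hB
        exact absurd rfl hB
    have hsumne : ∀ B, z B + zp B ≠ 0 → z B ≠ 0 ∧ ¬ pos (ν B) := by
      intro B hB
      by_cases hpos : pos (ν B)
      · simp only [hzp, if_pos hpos] at hB
        exact absurd (two_self _) hB
      · simp only [hzp, if_neg hpos, add_zero] at hB
        exact ⟨hB, hpos⟩
    refine ⟨upd z zp i', ?_, bd_upd hzc hzi hzpi, ?_⟩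
    · intro B hB
      unfold upd at hB
      split_ifs at hB with hiB
      · -- a new simplex
        set J := B.erase i' with hJ
        have hBJ : B = insert i' J := (insert_erase hiB).symm
        have h1 : ∃ k ∈ Jᶜ, zp (insert k J) ≠ 0 := by
          by_contra hcon
          push Not at hcon
          exact hB (Finset.sum_eq_zero hcon)
        obtain ⟨k₁, hk₁, h1⟩ := h1
        have h2 : ∃ k ∈ Jᶜ, z (insert k J) + zp (insert k J) ≠ 0 := by
          by_contra hcon
          push Not at hcon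
          have h3 := Finset.sum_eq_zero hcon
          rw [Finset.sum_add_distrib] at h3
          have h4 := hzc J
          unfold bd at h4 hB
          rw [h4, zero_add] at h3
          exact hB h3
        obtain ⟨k₂, hk₂, h2⟩ := h2
        obtain ⟨hz1, hpos1⟩ := hzpne _ h1
        obtain ⟨hz2, hpos2⟩ := hsumne _ h2
        have hJ1 : J ⊆ s.I (ν (insert k₁ J)) := (subset_insert _ _).trans (hν _ hz1)
        have hJ2 : J ⊆ s.I (ν (insert k₂ J)) := (subset_insert _ _).trans (hν _ hz2)
        have hcardJ : J.card + 1 = d := by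
          have := (hz _ hz1).1
          rwa [card_insert_of_notMem (mem_compl.1 hk₁)] at this
        have hiJ : i' ∉ J := by simp [hJ]
        refine ⟨by rw [hBJ, card_insert_of_notMem hiJ]; exact hcardJ, ?_⟩
        by_cases hn : neg (ν (insert k₂ J))
        · have hne : ν (insert k₂ J) ≠ ν (insert k₁ J) := by
            intro h
            rw [h] at hpos2
            exact hpos2 hpos1
          have hE : s.E (ν (insert k₂ J)) (ν (insert k₁ J)) := by
            apply hs.edge _ _ hne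
            have := Finset.card_le_card (subset_inter hJ2 hJ1)
            omega
          refine ⟨Sum.inr ⟨(ν (insert k₂ J), ν (insert k₁ J)), hn, hpos1, hE⟩, ?_⟩
          show B ⊆ insert i' (s.I (ν (insert k₂ J)) ∩ s.I (ν (insert k₁ J)))
          rw [hBJ]
          exact insert_subset_insert _ (subset_inter hJ2 hJ1)
        · refine ⟨Sum.inl ⟨ν (insert k₂ J), hpos2⟩, ?_⟩
          show B ⊆ (if neg (ν (insert k₂ J)) then s.I (ν (insert k₂ J)) else
            insert i' (s.I (ν (insert k₂ J))))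
          rw [if_neg hn, hBJ]
          exact insert_subset_insert _ hJ2
      · obtain ⟨h1, h2⟩ := hsumne _ hB
        refine ⟨(hz _ h1).1, Sum.inl ⟨ν B, h2⟩, ?_⟩
        show B ⊆ (if neg (ν B) then s.I (ν B) else insert i' (s.I (ν B)))
        split_ifs
        · exact hν _ h1
        · exact (hν _ h1).trans (subset_insert _ _)
    · intro y hy
      rw [deg_upd hzi hzpi, hzd y hy]
      intro B hB
      obtain ⟨h1, h2⟩ := hzpne B hB
      have hiB : i' ∉ B := fun h => h1 (hzi B h)
      refine sum_chi_zero (w := s.c (ν B)) hy ?_ ?_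
      · rw [card_insert_of_notMem hiB, (hz B h1).1]
      · intro k hk
        rw [mem_insert] at hk
        rcases hk with rfl | hk
        · have := ha.pos_lt _ h2
          linarith
        · have := hs.slab _ _ (hν B h1 hk)
          linarith

lemma inv_reach {A : Fin m → Fin d → ℝ} {ε : ℝ} (hε : 0 ≤ ε) (hd : 1 ≤ d)
    (hb : Bornology.IsBounded {x : Fin d → ℝ | ∀ j : Fin m, j.val ≤ d → A j ⬝ᵥ x ≤ 1})
    {i : ℕ} {s : State d m} (hr : Reach A ε i s) : Inv A ε i s := by
  induction hr with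
  | start h c hc => exact inv_initial hε hd h hb hc
  | step i s hi _ neg pos ha p hp ih => exact inv_step hε hd hi ih ha hp

lemma subset_conv {A : Fin m → Fin d → ℝ} {ε : ℝ} {i : ℕ} {s : State d m} (hs : Inv A ε i s) :
    Poly A 1 ⊆ convexHull ℝ (Set.range s.c) := by
  have := hs.fin
  intro x hx
  by_contra hcon
  have hcl : IsClosed (convexHull ℝ (Set.range s.c)) :=
    (Set.Finite.isCompact_convexHull (𝕜 := ℝ) (Set.finite_range s.c)).isClosed
  obtain ⟨f, u, hf1, hf2⟩ := geometric_hahn_banach_closed_point (convex_convexHull ℝ _) hcl hcon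
  have hfx : ∀ z : Fin d → ℝ, f z = (fun i => f (Pi.single i 1)) ⬝ᵥ z := by
    intro z
    have := LinearMap.pi_apply_eq_sum_univ (f : (Fin d → ℝ) →ₗ[ℝ] ℝ) z
    simp only [ContinuousLinearMap.coe_coe] at this
    rw [this, dotProduct]
    refine Finset.sum_congr rfl fun j _ => ?_
    rw [smul_eq_mul, mul_comm]
    congr 2
    funext l
    simp [Pi.single_apply, eq_comm]
  have hopen : IsOpen {y : Fin d → ℝ | ∀ v, y ⬝ᵥ s.c v < y ⬝ᵥ x} := by
    rw [Set.ofPred_forall]
    refine isOpen_iInter_of_finite fun v => ?_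
    refine isOpen_lt ?_ ?_
    · exact Continuous.dotProduct continuous_id continuous_const
    · exact Continuous.dotProduct continuous_id continuous_const
  obtain ⟨y, hy, hgen⟩ := gen_exists A _ hopen ⟨fun i => f (Pi.single i 1), fun v => by
    rw [← hfx, ← hfx]
    exact (hf1 _ (subset_convexHull ℝ _ ⟨v, rfl⟩)).trans hf2⟩
  obtain ⟨z, hz, -, hzd⟩ := hs.chain
  have h1 := hzd y hgen
  have h2 : ∃ B, z B * chi A B y ≠ 0 := by
    by_contra hcon
    push Not at hcon
    rw [Finset.sum_eq_zero fun B _ => hcon B] at h1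
    exact absurd h1 (by decide)
  obtain ⟨B, hB⟩ := h2
  have hzB : z B ≠ 0 := left_ne_zero_of_mul hB
  have hchi : InCone A B y := by
    by_contra hcon
    exact right_ne_zero_of_mul hB (if_neg hcon)
  obtain ⟨v, hv⟩ := (hz B hzB).2
  obtain ⟨μ, hμ0, hμ, hμy⟩ := hchi
  have h3 : ∑ k, μ k ≤ y ⬝ᵥ s.c v := by
    rw [hμy, sum_dotProduct]
    refine Finset.sum_le_sum fun k _ => ?_
    rw [smul_dotProduct, smul_eq_mul]
    by_cases hk : k ∈ B
    · have := hs.slab v k (hv hk)
      have := hμ0 k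
      nlinarith
    · rw [hμ k hk]; simp
  have h4 : y ⬝ᵥ x ≤ ∑ k, μ k := by
    rw [hμy, sum_dotProduct]
    refine Finset.sum_le_sum fun k _ => ?_
    rw [smul_dotProduct, smul_eq_mul]
    have := hx k
    have := hμ0 k
    nlinarith
  have h5 := hy v
  linarith

lemma convex_poly (A : Fin m → Fin d → ℝ) (t : ℝ) : Convex ℝ (Poly A t) := by
  intro x hx y hy a b ha hb hab j
  rw [dotProduct_add, dotProduct_smul, dotProduct_smul, smul_eq_mul, smul_eq_mul]
  have h1 := hx j
  have h2 := hy j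
  calc a * A j ⬝ᵥ x + b * A j ⬝ᵥ y ≤ a * t + b * t := by gcongr
    _ = t := by rw [← add_mul, hab, one_mul]

/-- **The approximate double description method is correct in every dimension `d ≥ 2`.**
Let `P = {x : A x ≤ 1}` be bounded, let the first `d+1` rows define a simplex and let `ε ≥ 0`.
(1) The initial points exist and are unique.  (2) No run gets stuck: in every state reached before
row `i` is processed there is an admissible partition, and for every admissible partition every
cut edge contains an admissible point.  (3) Every completed run has an output `c(V)` with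
`P ⊆ conv c(V) ⊆ (1+ε) P`. -/
theorem result (d m : ℕ) (hd : 2 ≤ d) (hm : d + 1 ≤ m) (A : Fin m → Fin d → ℝ)
    (_hP : Bornology.IsBounded (Poly A 1))
    (hS : IsSimplex {x : Fin d → ℝ | ∀ j : Fin m, j.val < d + 1 → A j ⬝ᵥ x ≤ 1})
    (ε : ℝ) (hε : 0 ≤ ε) :
    (∃! c : Fin (d + 1) → Fin d → ℝ, InitialPoints A ε hm c) ∧
    (∀ (i : ℕ) (s : State d m) (hi : i < m), Reach A ε i s →
      (∃ neg pos : s.V → Prop, Admissible A ε ⟨i, hi⟩ s neg pos) ∧
      ∀ neg pos : s.V → Prop, Admissible A ε ⟨i, hi⟩ s neg pos →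
        ∀ u w, neg u → pos w → s.E u w → ∃ q, GoodPoint A ε ⟨i, hi⟩ (s.c u) (s.c w) q) ∧
    (∀ s : State d m, Reach A ε m s →
      Poly A 1 ⊆ convexHull ℝ (Set.range s.c) ∧
      convexHull ℝ (Set.range s.c) ⊆ Poly A (1 + ε)) := by
  have hb : Bornology.IsBounded {x : Fin d → ℝ | ∀ j : Fin m, j.val ≤ d → A j ⬝ᵥ x ≤ 1} := by
    obtain ⟨v, -, hv⟩ := hS
    have h1 : {x : Fin d → ℝ | ∀ j : Fin m, j.val ≤ d → A j ⬝ᵥ x ≤ 1} =
        {x : Fin d → ℝ | ∀ j : Fin m, j.val < d + 1 → A j ⬝ᵥ x ≤ 1} := by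
      ext x
      simp only [Set.mem_ofPred_eq, Nat.lt_succ_iff]
    rw [h1, hv]
    exact (Set.Finite.isCompact_convexHull (𝕜 := ℝ) (Set.finite_range v)).isBounded
  refine ⟨?_, ?_, ?_⟩
  · obtain ⟨Λ, hΛ, hΛ0, hsur⟩ := simplex_facts hm hb
    have hex : ∀ j : Fin (d + 1), ∃ x, ∀ k, k ≠ j → A (Fin.castLE hm k) ⬝ᵥ x = 1 + ε / 2 := by
      intro j
      obtain ⟨x, hx⟩ := hsur (fun k => if k = j then
        -(∑ l ∈ univ.erase j, Λ l * (1 + ε / 2)) / Λ j else 1 + ε / 2) (by
          have h2 : ∀ r : ℝ, ∑ l ∈ univ.erase j, Λ l * (if l = j then r else 1 + ε / 2) =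
              ∑ l ∈ univ.erase j, Λ l * (1 + ε / 2) := fun r =>
            Finset.sum_congr rfl fun l hl => by rw [if_neg (mem_erase.1 hl).1]
          rw [← Finset.add_sum_erase _ _ (mem_univ j), if_pos rfl,
            mul_div_cancel₀ _ (hΛ j).ne', h2]
          ring)
      refine ⟨x, fun k hk => ?_⟩
      rw [hx k, if_neg hk]
    choose c hc using hex
    refine ⟨c, fun j k hk => hc j k hk, ?_⟩
    intro c' hc'
    funext j
    by_contra hne
    have hne' : c' j - c j ≠ 0 := sub_ne_zero.2 hne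
    have hz : ∀ k, k ≠ j → A (Fin.castLE hm k) ⬝ᵥ (c' j - c j) = 0 := by
      intro k hk
      rw [dotProduct_sub, hc j k hk, hc' j k hk, sub_self]
    have hzj : A (Fin.castLE hm j) ⬝ᵥ (c' j - c j) = 0 := by
      have h1 : (∑ l, Λ l • A (Fin.castLE hm l)) ⬝ᵥ (c' j - c j) = 0 := by
        rw [hΛ0, zero_dotProduct]
      rw [sum_dotProduct, ← Finset.add_sum_erase _ _ (mem_univ j), Finset.sum_eq_zero,
        add_zero, smul_dotProduct, smul_eq_mul] at h1
      · exact (mul_eq_zero.1 h1).resolve_left (hΛ j).ne'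
      · intro l hl
        rw [smul_dotProduct, hz l (mem_erase.1 hl).1, smul_zero]
    obtain ⟨k, hk⟩ := star hm hb hne'
    by_cases hkj : k = j
    · rw [hkj, hzj] at hk; exact lt_irrefl _ hk
    · rw [hz k hkj] at hk; exact lt_irrefl _ hk
  · intro i s hi hr
    have hinv := inv_reach hε (by omega) hb hr
    constructor
    · refine ⟨fun v => A ⟨i, hi⟩ ⬝ᵥ s.c v < 1 + ε / 2, fun v => 1 + ε / 2 < A ⟨i, hi⟩ ⬝ᵥ s.c v,
        ?_, ?_, fun v h => h, fun v h => h, ?_⟩
      · by_contra hcon
        push Not at hcon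
        have h0 : (0 : Fin d → ℝ) ∈ Poly A 1 := fun j => by
          rw [dotProduct_zero]; exact zero_le_one
        have h1 := subset_conv hinv h0
        have h2 : convexHull ℝ (Set.range s.c) ⊆ {x | 1 + ε / 2 ≤ A ⟨i, hi⟩ ⬝ᵥ x} := by
          apply convexHull_min
          · rintro _ ⟨v, rfl⟩
            exact hcon v
          · intro x hx y hy a b ha hb' hab
            simp only [Set.mem_ofPred_eq] at hx hy ⊢
            rw [dotProduct_add, dotProduct_smul, dotProduct_smul, smul_eq_mul, smul_eq_mul]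
            calc 1 + ε / 2 = a * (1 + ε / 2) + b * (1 + ε / 2) := by
                  rw [← add_mul, hab, one_mul]
              _ ≤ _ := by gcongr
        have h3 := h2 h1
        simp only [Set.mem_ofPred_eq, dotProduct_zero] at h3
        linarith
      · intro v h1 h2
        exact lt_asymm h1 h2
      · intro v h1 h2
        have h3 : A ⟨i, hi⟩ ⬝ᵥ s.c v = 1 + ε / 2 := le_antisymm (not_lt.1 h2) (not_lt.1 h1)
        rw [h3]
        constructor <;> linarith
    · intro neg pos ha u w hu hw _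
      have h1 := ha.neg_lt u hu
      have h2 := ha.pos_lt w hw
      set α := A ⟨i, hi⟩ ⬝ᵥ s.c u with hα
      set β := A ⟨i, hi⟩ ⬝ᵥ s.c w with hβ
      have hαβ : 0 < β - α := by linarith
      set t := (1 + ε / 2 - α) / (β - α) with ht
      have ht0 : 0 ≤ t := div_nonneg (by linarith) hαβ.le
      have ht1 : t ≤ 1 := (div_le_one hαβ).2 (by linarith)
      have hv : A ⟨i, hi⟩ ⬝ᵥ ((1 - t) • s.c u + t • s.c w) = 1 + ε / 2 := by
        rw [dotProduct_add, dotProduct_smul, dotProduct_smul, smul_eq_mul, smul_eq_mul, ← hα, ← hβ]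
        have : t * (β - α) = 1 + ε / 2 - α := div_mul_cancel₀ _ hαβ.ne'
        linarith
      refine ⟨(1 - t) • s.c u + t • s.c w, ⟨1 - t, t, by linarith, ht0, by ring, rfl⟩, ?_, ?_⟩
      · rw [hv]; linarith
      · rw [hv]; linarith
  · intro s hr
    have hinv := inv_reach hε (by omega) hb hr
    refine ⟨subset_conv hinv, ?_⟩
    apply convexHull_min
    · rintro _ ⟨v, rfl⟩ j
      exact hinv.le v j j.isLt
    · exact convex_poly A _

end Pool.Agent.Results.MP_d4db3843_lc.EveryDimension
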